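import Mathlib
import Pool.Agent.TH314.PD.Upper

/-!
# Nondegeneracy of the second derivatives at the generic point
(the second half of the proof of `Pool.Agent.TH314.PD.nd`)
-/

set_option autoImplicit false

namespace Pool.Agent.TH920.MA

open MvPolynomial Pool.Agent.TH314.PD

noncomputable section

variable {n : ℕ} {K : Type} [Field K] [Algebra ℂ K]

theorem nd_hess [CharZero K] (al : MvPolynomial (Fin n) ℂ →ₐ[ℂ] K)
    (hb : IsTranscendenceBasis ℂ (fun l : Fin n => al (X l)))
    (Γ : Fin (n + 2) → MvPolynomial (Fin n) ℂ) (Y : Fin (n + 2) → K) (hY0 : Y 0 = 1)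
    (hr0 : ∑ j, Y j * al (Γ j) = 0) (hr1 : ∀ l, ∑ j, Y j * al (pderiv l (Γ j)) = 0)
    (hind : ∀ (a : K) (w : Fin n → K),
      (∀ j, a * al (Γ j) + ∑ l, w l * al (pderiv l (Γ j)) = 0) → a = 0 ∧ w = 0)
    (hder : ∀ δ : Derivation ℂ (K) (K), (∀ j, δ (Y j) = 0) → δ = 0)
    (w : Fin n → K)
    (hsome' : ∀ l : Fin n, ∑ m, w m * ∑ j, Y j * al (pderiv m (pderiv l (Γ j))) = 0) :
    w = 0 := by
  classical
  obtain ⟨δ, hδ⟩ := exists_der' al hb w
  -- `δ Y` is orthogonal to the same vectors as `Y`
  have hd0 : ∑ j, δ (Y j) * al (Γ j) = 0 := by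
    have h1 := congrArg δ hr0
    rw [map_zero, map_sum] at h1
    have h2 : ∀ j, δ (Y j * al (Γ j)) = δ (Y j) * al (Γ j) +
        ∑ l, w l * (Y j * al (pderiv l (Γ j))) := by
      intro j
      rw [Derivation.leibniz, smul_eq_mul, smul_eq_mul, hδ, Finset.mul_sum, add_comm]
      congr 1
      · ring
      · exact Finset.sum_congr rfl fun l _ => by ring
    rw [Finset.sum_congr rfl fun j _ => h2 j, Finset.sum_add_distrib, Finset.sum_comm] at h1
    have h3 : ∑ l, ∑ j, w l * (Y j * al (pderiv l (Γ j))) = 0 := by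
      refine Finset.sum_eq_zero fun l _ => ?_
      rw [← Finset.mul_sum, hr1 l, mul_zero]
    rwa [h3, add_zero] at h1
  have hd1 : ∀ l, ∑ j, δ (Y j) * al (pderiv l (Γ j)) = 0 := by
    intro l
    have h1 := congrArg δ (hr1 l)
    rw [map_zero, map_sum] at h1
    have h2 : ∀ j, δ (Y j * al (pderiv l (Γ j))) = δ (Y j) * al (pderiv l (Γ j)) +
        ∑ m, w m * (Y j * al (pderiv m (pderiv l (Γ j)))) := by
      intro j
      rw [Derivation.leibniz, smul_eq_mul, smul_eq_mul, hδ, Finset.mul_sum, add_comm]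
      congr 1
      · ring
      · exact Finset.sum_congr rfl fun l _ => by ring
    rw [Finset.sum_congr rfl fun j _ => h2 j, Finset.sum_add_distrib, Finset.sum_comm] at h1
    have h3 : ∑ m, ∑ j, w m * (Y j * al (pderiv m (pderiv l (Γ j)))) = 0 := by
      have h4 := hsome' l
      simp only [Finset.mul_sum] at h4
      exact h4
    rwa [h3, add_zero] at h1
  -- the matrix of the conditions
  let Mx : Matrix (Option (Fin n)) (Fin (n + 2)) (K) :=
    Matrix.of fun i j => match i with
      | none => al (Γ j)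
      | some l => al (pderiv l (Γ j))
  have hrow : LinearIndependent (K) Mx.row := by
    rw [Fintype.linearIndependent_iff]
    intro g hg
    have h1 : ∀ j, g none * al (Γ j) + ∑ l, g (some l) * al (pderiv l (Γ j)) = 0 := by
      intro j
      have h2 := congrFun hg j
      rw [Fintype.sum_option] at h2
      rw [Pi.add_apply, Finset.sum_apply] at h2
      exact h2
    obtain ⟨h3, h4⟩ := hind (g none) (fun l => g (some l)) h1
    intro i
    cases i with
    | none => exact h3
    | some l => exact congrFun h4 l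
  have hrank := hrow.rank_matrix
  rw [Fintype.card_option, Fintype.card_fin] at hrank
  have hkerdim : Module.finrank (K) (LinearMap.ker Mx.mulVecLin) = 1 := by
    have h1 := LinearMap.finrank_range_add_finrank_ker Mx.mulVecLin
    rw [Module.finrank_fin_fun] at h1
    have h2 : Mx.rank = Module.finrank (K) (LinearMap.range Mx.mulVecLin) := rfl
    omega
  have hmem : ∀ u : Fin (n + 2) → K, ∑ j, u j * al (Γ j) = 0 →
      (∀ l, ∑ j, u j * al (pderiv l (Γ j)) = 0) → u ∈ LinearMap.ker Mx.mulVecLin := by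
    intro u h1 h2
    rw [LinearMap.mem_ker, Matrix.mulVecLin_apply]
    funext i
    cases i with
    | none =>
      have h3 : Mx.mulVec u none = ∑ j, al (Γ j) * u j := rfl
      rw [h3, Pi.zero_apply, ← h1]
      exact Finset.sum_congr rfl fun j _ => mul_comm _ _
    | some l =>
      have h3 : Mx.mulVec u (some l) = ∑ j, al (pderiv l (Γ j)) * u j := rfl
      rw [h3, Pi.zero_apply, ← h2 l]
      exact Finset.sum_congr rfl fun j _ => mul_comm _ _
  let v : LinearMap.ker Mx.mulVecLin := ⟨Y, hmem Y hr0 hr1⟩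
  let v' : LinearMap.ker Mx.mulVecLin := ⟨fun j => δ (Y j), hmem _ hd0 hd1⟩
  have hv : v ≠ 0 := by
    intro h'
    have h1 := congrFun (congrArg Subtype.val h') 0
    change Y 0 = 0 at h1
    rw [hY0] at h1
    exact one_ne_zero h1
  obtain ⟨c, hc⟩ := (finrank_eq_one_iff_of_nonzero' v hv).1 hkerdim v'
  have hc' : ∀ j, c * Y j = δ (Y j) := fun j => congrFun (congrArg Subtype.val hc) j
  have hc0 : c = 0 := by
    have h1 := hc' 0
    rw [hY0, mul_one, Derivation.map_one_eq_zero] at h1
    exact h1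
  have hδ0 : δ = 0 := hder δ fun j => by rw [← hc' j, hc0, zero_mul]
  funext l
  have h1 := hδ (X l)
  rw [hδ0, Derivation.zero_apply] at h1
  rw [Finset.sum_eq_single l, pderiv_X_self, map_one, mul_one] at h1
  · exact h1.symm
  · intro m _ hm
    rw [pderiv_X_of_ne (Ne.symm hm), map_zero, mul_zero]
  · intro h'
    exact absurd (Finset.mem_univ _) h'

end

end Pool.Agent.TH920.MA
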